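import Pool.Agent.H77.SSA.Stmts

/-! SSA, module AM: amalgamation. -/

namespace SSA

open Filter

theorem am_Z (r p : RC) : (r.am p).Z = r.Z ∪ p.Z := rfl

theorem am_dl_pos {r p : RC} {g : Crd} (h : g ∈ r.Z) : (r.am p).dl g = r.dl g := by
  classical
  exact if_pos h

theorem am_dl_neg {r p : RC} {g : Crd} (h : g ∉ r.Z) : (r.am p).dl g = p.dl g := by
  classical
  exact if_neg h

theorem am_st_pos {r p : RC} {g : Crd} (h : g ∈ r.Z) : (r.am p).st g = r.st g := by
  classical
  exact if_pos h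

theorem am_st_neg {r p : RC} {g : Crd} (h : g ∉ r.Z) : (r.am p).st g = p.st g := by
  classical
  exact if_neg h

theorem am_le_right (r p : RC) : (r.am p).Le r where
  ht := le_rfl
  x _ _ := rfl
  z _ _ := rfl
  Pi := subset_rfl
  av ξ h1 h2 := absurd h2 (not_lt.2 h1)
  Z := Set.subset_union_left
  dl g hg := by rw [am_dl_pos hg]
  st g hg n k := by rw [am_st_pos hg]; exact St.le_refl _

theorem am_le_left {r p : RC} {B : Set Crd} (hrB : r.Z ⊆ B) (h : r.Le (p.res B)) :
    (r.am p).Le p where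
  ht := h.ht
  x := h.x
  z := h.z
  Pi := h.Pi
  av := h.av
  Z := Set.subset_union_right
  dl g hg := by
    by_cases hr : g ∈ r.Z
    · rw [am_dl_pos hr]
      exact h.dl g ⟨hg, hrB hr⟩
    · rw [am_dl_neg hr]
  st g hg n k := by
    by_cases hr : g ∈ r.Z
    · rw [am_st_pos hr]
      exact h.st g ⟨hg, hrB hr⟩ n k
    · rw [am_st_neg hr]
      exact St.le_refl _

/-- below the amalgam nothing changes -/
theorem am_sim {r p : RC} {A B : Set Crd} (hA : A ⊆ B) (h : r.Le (p.res B)) (hr : r.Lg) :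
    ((r.am p).res A).Sim (r.res A) where
  ht := rfl
  x _ _ := rfl
  z _ _ := rfl
  Pi := rfl
  Z := by
    show (r.Z ∪ p.Z) ∩ A = r.Z ∩ A
    ext g
    constructor
    · rintro ⟨hg | hg, hgA⟩
      · exact ⟨hg, hgA⟩
      · exact ⟨h.Z ⟨hg, hA hgA⟩, hgA⟩
    · rintro ⟨hg, hgA⟩
      exact ⟨Or.inl hg, hgA⟩
  dl g hg := am_dl_pos hg.1
  leg g hg n k := by
    show ((r.am p).st g n k).leg (nb k)
    rw [am_st_pos hg.1]
    exact hr g hg.1 n k
  fin := by
    refine Set.Finite.subset Set.finite_empty ?_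
    rintro ⟨g, n, k⟩ ⟨hg, hne⟩
    exfalso
    apply hne
    show (r.am p).st g n k = r.st g n k
    rw [am_st_pos hg.1]

theorem ssa_am (hE : EXTStmt) : AMStmt := by
  intro A B p r hB hBA hp hr hrp
  have hle1 := am_le_left (r := r) (p := p) hr.2.1 hrp
  have hle2 := am_le_right r p
  refine ⟨?_, hle1, hle2⟩
  refine hE A p (r.am p) hp hle1 ?_ ?_ ?_
  · refine ⟨hr.1.cPi, hr.1.sl, ?_, hr.1.xb, hr.1.ed⟩
    rw [am_Z]
    exact hr.1.cZ.union hp.1.cZ
  · rw [am_Z]
    exact Set.union_subset (hr.2.1.trans hBA) hp.2.1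
  · intro g hg
    by_cases hgr : g ∈ r.Z
    · right
      obtain ⟨hV, hO⟩ := hr.2.2 g hgr
      have hdl := am_dl_pos (p := p) hgr
      have hst := am_st_pos (p := p) hgr
      have hV' : (r.am p).VC g := by
        refine ⟨?_, ?_, ?_, ?_, ?_, ?_, ?_⟩
        · rw [hdl]; exact hV.dht
        · rw [hst]; exact hV.leg
        · rw [hdl, hst]; exact hV.c1
        · rw [hdl, hst]; exact hV.c3
        · rw [hdl, hst]; exact hV.c4
        · rw [hst]; exact hV.r3
        · rw [hst]; exact hV.r4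
      refine ⟨hV', ?_⟩
      rw [Ok_iff] at hO ⊢
      refine ⟨hO.1, fun ξ hξ => ?_⟩
      rw [hdl] at hξ
      have h1 := hO.2 ξ hξ
      intro p' hp' N r1 hr1 hrp1
      have hs := am_sim (hB g (hr.2.1 hgr)) hrp hr.lg
      have h2 := h1 p' (hp'.trans hs) N r1 hr1 hrp1
      rw [hst]
      exact h2
    · left
      have hgp : g ∈ p.Z := by
        rcases hg with h | h
        · exact absurd h hgr
        · exact h
      refine ⟨hgp, am_dl_neg hgr, fun n k => ?_⟩
      rw [am_st_neg hgr]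

end SSA
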