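import Pool.Agent.H77.SSA.Stmts

/-! SSA, module CATCH: every condition below a finite change meets one decision. -/

namespace SSA

open Filter

theorem put_st_pos {p : RC} {Ψ : Finset Pos} {τ : Pos → St} {g : Crd} {n k : ℕ}
    (h : (g, n, k) ∈ Ψ) : (p.put Ψ τ).st g n k = τ (g, n, k) := by
  classical
  exact if_pos h

theorem put_st_neg {p : RC} {Ψ : Finset Pos} {τ : Pos → St} {g : Crd} {n k : ℕ}
    (h : (g, n, k) ∉ Ψ) : (p.put Ψ τ).st g n k = p.st g n k := by
  classical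
  exact if_neg h

theorem ssa_catch (hS : SIMStmt) : CATCHStmt := by
  intro A q q' Ψ hq hsim hΨ hoff r hr hrq
  choose τ0 h1 h2 h3 using fun t : Pos => St.exists_dec (r.at t)
  have hZ : ∀ g ∈ q.Z, g ∈ r.Z := fun g hg => hrq.Z (by rw [hsim.Z]; exact hg)
  have hLg := hr.lg
  refine ⟨r.put Ψ τ0, τ0, ?_, ?_, ?_, ?_⟩
  · refine hS A r (r.put Ψ τ0) hr ⟨rfl, fun _ _ => rfl, fun _ _ => rfl, rfl, rfl,
      fun _ _ => rfl, ?_, ?_⟩
    · intro g hg n k
      by_cases h : (g, n, k) ∈ Ψ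
      · rw [put_st_pos h]
        exact h3 (g, n, k) _ (hLg g hg n k)
      · rw [put_st_neg h]
        exact hLg g hg n k
    · refine Set.Finite.subset Ψ.finite_toSet ?_
      rintro ⟨g, n, k⟩ ⟨_, hne⟩
      by_contra h
      exact hne (put_st_neg h)
  · refine ⟨le_rfl, fun _ _ => rfl, fun _ _ => rfl, subset_rfl,
      fun ξ h4 h5 => absurd h5 (not_lt.2 h4), subset_rfl, fun _ _ => le_rfl, ?_⟩
    intro g hg n k
    by_cases h : (g, n, k) ∈ Ψ
    · rw [put_st_pos h]
      exact h2 (g, n, k)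
    · rw [put_st_neg h]
      exact St.le_refl _
  · intro t ht
    exact ⟨h3 t _ (hLg t.1 (hZ _ (hΨ t ht)) t.2.1 t.2.2), h1 t⟩
  · refine ⟨?_, ?_, ?_, ?_, ?_, ?_, ?_, ?_⟩
    · exact hsim.ht ▸ hrq.ht
    · intro ξ hξ
      have hξ' : ξ < q.ht := hξ
      exact (hrq.x ξ (by rw [hsim.ht]; exact hξ')).trans (hsim.x ξ hξ')
    · intro ξ hξ
      have hξ' : ξ < q.ht := hξ
      exact (hrq.z ξ (by rw [hsim.ht]; exact hξ')).trans (hsim.z ξ hξ')
    · intro S hS'
      exact hrq.Pi (by rw [hsim.Pi]; exact hS')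
    · intro ξ h4 h5 S hS'
      exact hrq.av ξ (by rw [hsim.ht]; exact h4) h5 S (by rw [hsim.Pi]; exact hS')
    · exact hZ
    · intro g hg
      have h4 := hrq.dl g (by rw [hsim.Z]; exact hg)
      rw [hsim.dl g hg] at h4
      exact h4
    · intro g hg n k
      by_cases h : (g, n, k) ∈ Ψ
      · rw [put_st_pos h, put_st_pos h]
        exact St.le_refl _
      · rw [put_st_neg h, put_st_neg h]
        have h4 := hrq.st g (by rw [hsim.Z]; exact hg) n k
        rw [hoff g hg n k h] at h4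
        exact h4

end SSA
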