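import Pool.Agent.H77.SSA.GDefs

/-! Modules PIN, NMI of project SSA. -/

set_option linter.unusedVariables false
set_option linter.unusedSectionVars false
set_option synthInstance.maxSize 100000

namespace SSA

open SW CU CUR

namespace PinM

section
variable {P : Type} [Preorder P]

theorem op_fs (a b : HN P Tg) (p : P) :
    FS (fun N _ (w : Fin 3 → N) => IsOP (w 0) (w 1) (w 2)) p ![opN a b, a, b] := by
  refine fs_of _ (fun j => if j = 0 then pairN a a else pairN a b) fun ν d hg hk w hw u hu => ?_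
  have w0 : ν (w 0) = opN a b := hw 0
  have w1 : ν (w 1) = a := hw 1
  have w2 : ν (w 2) = b := hw 2
  have u0 : ν (u 0) = pairN a a := hu 0
  have u1 : ν (u 1) = pairN a b := hu 1
  refine ⟨qc ν d (u 0), qc ν d (u 1), fun x => ?_, fun x => ?_, fun x => ?_⟩
  · rw [gn_pairN hg (i := w 1) (j := w 1) (by rw [u0, w1]), or_self]
  · rw [gn_pairN hg (i := w 1) (j := w 2) (by rw [u1, w1, w2])]
  · rw [gn_pairN hg (i := u 0) (j := u 1) (by rw [w0, u0, u1]; rfl)]

theorem gn_op {ν : ℕ → HN P Tg} {c : ℕ → P} (hg : Gn ν c) [ZF (GQ ν c)] {m i j : ℕ}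
    (hm : ν m = opN (ν i) (ν j)) : qc ν c m = opair (qc ν c i) (qc ν c j) := by
  have h := op_fs (ν i) (ν j) (c 0) ν c hg ⟨0, le_rfl⟩ ![m, i, j] (fun l => by
    fin_cases l
    · exact hm
    · rfl
    · rfl)
  exact isOP_iff.1 h

theorem trr_iff {N : Type} [SetStr N] [ZF N] (x y z R : N) :
    Trr x y z R ↔ E (opair x (opair y z)) R := by
  constructor
  · rintro ⟨u, hu, h⟩
    rw [isOP_iff] at hu
    subst hu
    exact pairIn_iff.1 h
  · intro h
    exact ⟨opair y z, isOP_iff.2 rfl, pairIn_iff.2 h⟩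

theorem ne_ex {a b : Nm P} {p : P} (h : ¬ EqF a b p) : ∃ q, q ≤ p ∧ ∀ r, r ≤ q → ¬ EqF a b r := by
  by_contra hcon
  push Not at hcon
  exact h (eqF_dense hcon)

end

end PinM

open PinM

/-- module PIN -/
theorem ssa_pin : PINStmt := by
  intro P _ p a b d e
  constructor
  · constructor
    · intro h
      refine (fs_mem (0 : Fin 2) 1 p ![opN a b, d]).1 ?_
      refine fs_of (fun N _ (w : Fin 2 → N) => E (w 0) (w 1)) (fun j => if j = 0 then a else b)
        fun ν c hg hk w hw u hu => ?_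
      have _ := gn_zf hg
      have w0 : ν (w 0) = opN a b := hw 0
      have w1 : ν (w 1) = d := hw 1
      have u0 : ν (u 0) = a := hu 0
      have u1 : ν (u 1) = b := hu 1
      have h1 := h ν c hg hk ![u 0, u 1, w 1] (fun l => by
        fin_cases l
        · exact u0
        · exact u1
        · exact w1)
      have h2 : PairIn (qc ν c (u 0)) (qc ν c (u 1)) (qc ν c (w 1)) := h1
      rw [pairIn_iff, ← gn_op hg (m := w 0) (by rw [w0, u0, u1])] at h2
      exact h2
    · intro h
      refine fs_of (fun N _ (w : Fin 3 → N) => PairIn (w 0) (w 1) (w 2)) (fun j => opN a b)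
        fun ν c hg hk w hw u hu => ?_
      have _ := gn_zf hg
      have w0 : ν (w 0) = a := hw 0
      have w1 : ν (w 1) = b := hw 1
      have w2 : ν (w 2) = d := hw 2
      have u0 : ν (u 0) = opN a b := hu 0
      obtain ⟨k, hk⟩ := hk
      show PairIn (qc ν c (w 0)) (qc ν c (w 1)) (qc ν c (w 2))
      rw [pairIn_iff, ← gn_op hg (m := u 0) (by rw [w0, u0, w1])]
      refine (gn_mem_iff hg _ _).2 ⟨k, ?_⟩
      rw [u0, w2]
      exact memF_mono h hk
  · constructor
    · intro h
      refine (fs_mem (0 : Fin 2) 1 p ![opN a (opN b d), e]).1 ?_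
      refine fs_of (fun N _ (w : Fin 2 → N) => E (w 0) (w 1))
        (fun j => if j = 0 then a else if j = 1 then b else if j = 2 then d else opN b d)
        fun ν c hg hk w hw u hu => ?_
      have _ := gn_zf hg
      have w0 : ν (w 0) = opN a (opN b d) := hw 0
      have w1 : ν (w 1) = e := hw 1
      have u0 : ν (u 0) = a := hu 0
      have u1 : ν (u 1) = b := hu 1
      have u2 : ν (u 2) = d := hu 2
      have u3 : ν (u 3) = opN b d := hu 3
      have h1 := h ν c hg hk ![u 0, u 1, u 2, w 1] (fun l => by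
        fin_cases l
        · exact u0
        · exact u1
        · exact u2
        · exact w1)
      have h2 : Trr (qc ν c (u 0)) (qc ν c (u 1)) (qc ν c (u 2)) (qc ν c (w 1)) := h1
      rw [trr_iff, ← gn_op hg (m := u 3) (by rw [u3, u1, u2]),
        ← gn_op hg (m := w 0) (by rw [w0, u0, u3])] at h2
      exact h2
    · intro h
      refine fs_of (fun N _ (w : Fin 4 → N) => Trr (w 0) (w 1) (w 2) (w 3))
        (fun j => if j = 0 then opN a (opN b d) else opN b d)
        fun ν c hg hk w hw u hu => ?_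
      have _ := gn_zf hg
      have w0 : ν (w 0) = a := hw 0
      have w1 : ν (w 1) = b := hw 1
      have w2 : ν (w 2) = d := hw 2
      have w3 : ν (w 3) = e := hw 3
      have u0 : ν (u 0) = opN a (opN b d) := hu 0
      have u1 : ν (u 1) = opN b d := hu 1
      obtain ⟨k, hk⟩ := hk
      show Trr (qc ν c (w 0)) (qc ν c (w 1)) (qc ν c (w 2)) (qc ν c (w 3))
      rw [trr_iff, ← gn_op hg (m := u 1) (by rw [u1, w1, w2]),
        ← gn_op hg (m := u 0) (by rw [u0, w0, u1])]
      refine (gn_mem_iff hg _ _).2 ⟨k, ?_⟩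
      rw [u0, w3]
      exact memF_mono h hk

/-- module NMI -/
theorem ssa_nmi : NMIStmt := by
  intro P _
  refine ⟨fun m n p h => ?_, fun a b a' b' p h => ?_, ?_⟩
  · obtain ⟨ν, c, h1, h2, h3⟩ := genExists P Tg p (numH P Tg)
    choose u hu using h3
    have hq : qc ν c (u m) = qc ν c (u n) :=
      (gn_eq_iff h1 _ _).2 ⟨0, by rw [hu, hu]; exact eqF_mono h h2⟩
    have hirr : ∀ x : GQ ν c, ¬ E x x := fun x hx => (gn_wf h1).asymmetric x x hx hx
    rcases lt_trichotomy m n with h4 | h4 | h4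
    · exfalso
      have : E (qc ν c (u m)) (qc ν c (u n)) := (gn_num h1 hu n _).2 ⟨m, h4, rfl⟩
      rw [hq] at this
      exact hirr _ this
    · exact h4
    · exfalso
      have : E (qc ν c (u n)) (qc ν c (u m)) := (gn_num h1 hu m _).2 ⟨n, h4, rfl⟩
      rw [hq] at this
      exact hirr _ this
  · -- in every generic quotient through `p`
    have key : ∀ q, q ≤ p → ∃ r, r ≤ q ∧ EqF a.1 a'.1 r ∧ EqF b.1 b'.1 r := by
      intro q hq
      obtain ⟨ν, c, h1, h2, h3⟩ := genExists P Tg q
        (fun j => if j = 0 then a else if j = 1 then b else if j = 2 then a' else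
          if j = 3 then b' else if j = 4 then opN a b else opN a' b')
      choose u hu using h3
      have _ := gn_zf h1
      have u0 : ν (u 0) = a := hu 0
      have u1 : ν (u 1) = b := hu 1
      have u2 : ν (u 2) = a' := hu 2
      have u3 : ν (u 3) = b' := hu 3
      have u4 : ν (u 4) = opN a b := hu 4
      have u5 : ν (u 5) = opN a' b' := hu 5
      have e1 : qc ν c (u 4) = qc ν c (u 5) :=
        (gn_eq_iff h1 _ _).2 ⟨0, by rw [u4, u5]; exact eqF_mono h (h2.trans hq)⟩
      rw [gn_op h1 (m := u 4) (i := u 0) (j := u 1) (by rw [u4, u0, u1]),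
        gn_op h1 (m := u 5) (i := u 2) (j := u 3) (by rw [u5, u2, u3])] at e1
      obtain ⟨e2, e3⟩ := opair_inj.1 e1
      obtain ⟨k, hk⟩ := (gn_eq_iff h1 _ _).1 e2
      obtain ⟨l, hl⟩ := (gn_eq_iff h1 _ _).1 e3
      rw [u0, u2] at hk
      rw [u1, u3] at hl
      have anti := le_of_anti h1.anti
      refine ⟨c (max k l), (anti 0 _ (Nat.zero_le _)).trans h2,
        eqF_mono hk (anti _ _ (le_max_left _ _)), eqF_mono hl (anti _ _ (le_max_right _ _))⟩
    refine ⟨eqF_dense fun q hq => ?_, eqF_dense fun q hq => ?_⟩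
    · obtain ⟨r, hr, h1, _⟩ := key q hq
      exact ⟨r, hr, h1⟩
    · obtain ⟨r, hr, _, h1⟩ := key q hq
      exact ⟨r, hr, h1⟩
  · intro Ω _ _
    have mem : ∀ (ξ η : Ω) (p : P), ξ < η → MemF (chk ξ : Nm P) (chk η) p := by
      intro ξ η p h
      rw [chk_eq η]
      exact memF_famN (fun t : {t : Ω // t < η} => (chk t.1 : Nm P)) ⟨ξ, h⟩ p
    have irr : ∀ (ξ : Ω) (p : P), ¬ MemF (chk ξ : Nm P) (chk ξ) p := by
      intro ξ p h
      obtain ⟨ν, c, h1, h2, h3⟩ := genExists P Tg p (fun _ => (hn (chk ξ) : HN P Tg))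
      obtain ⟨j, hj⟩ := h3 0
      have : E (qc ν c j) (qc ν c j) := (gn_mem_iff h1 _ _).2 ⟨0, by
        rw [hj]
        exact memF_mono h h2⟩
      exact (gn_wf h1).asymmetric _ _ this this
    intro ξ η p h
    rcases lt_trichotomy ξ η with h1 | h1 | h1
    · exact absurd (memF_congl h (mem ξ η p h1)) (irr η p)
    · exact h1
    · exact absurd (memF_congl (eqF_symm h) (mem η ξ p h1)) (irr ξ p)

end SSA
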