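import Pool.Agent.H77.SSA.GDefs

/-! Modules REL, BAS of project SSA. -/

set_option linter.unusedVariables false
set_option linter.unusedSectionVars false
set_option synthInstance.maxSize 100000

namespace SSA

open SW CU CUR

/-- module REL -/
theorem ssa_rel : RELStmt := by
  intro P _ ι Q x hm hi i p
  constructor
  · intro h q hq
    obtain ⟨r, hr, t, ht, he⟩ := h q hq
    have e : i = t.1.2 := hi i t.1.2 r he
    refine ⟨r, hr, ?_⟩
    rw [e]
    exact hm t.1.1 r t.1.2 ht t.2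
  · intro h q hq
    obtain ⟨r, hr, hQ⟩ := h q hq
    exact ⟨r, hr, ⟨(r, i), hQ⟩, le_rfl, eqF_refl _ _⟩

/-- module BAS -/
theorem ssa_bas : BASStmt := by
  intro P _ ν c hg hR _
  choose u hu using hR.1
  obtain ⟨o, ho⟩ := hR.2
  have hnum : ∀ n, qc ν c (u n) = nu n := by
    intro n
    induction n using Nat.strong_induction_on with
    | _ n ih =>
      refine ext fun y => ?_
      rw [gn_num hg hu, mem_nu]
      constructor
      · rintro ⟨i, hi, rfl⟩
        exact ⟨i, hi, ih i hi⟩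
      · rintro ⟨i, hi, rfl⟩
        exact ⟨i, hi, (ih i hi).symm⟩
  have hnum' : ∀ m n, ν m = numH P Tg n → qc ν c m = nu n := by
    intro m n h
    rw [← hnum n]
    exact (gn_eq_iff hg _ _).2 ⟨0, by rw [h, hu]; exact eqF_refl _ _⟩
  have hom : ∀ m, ν m = omH P Tg → qc ν c m = om := by
    intro m h
    have h1 : ∀ y, E y (qc ν c m) ↔ ∃ n, y = nu n := by
      intro y
      rw [gn_om hg h hu]
      constructor
      · rintro ⟨n, rfl⟩
        exact ⟨n, hnum n⟩
      · rintro ⟨n, rfl⟩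
        exact ⟨n, (hnum n).symm⟩
    refine (isOm_iff _).1 ⟨?_, ?_⟩
    · rw [isInd_iff]
      refine ⟨(h1 _).2 ⟨0, rfl⟩, fun y hy => ?_⟩
      obtain ⟨n, rfl⟩ := (h1 _).1 hy
      exact (h1 _).2 ⟨n + 1, rfl⟩
    · intro z hz y hy
      rw [isInd_iff] at hz
      obtain ⟨n, rfl⟩ := (h1 _).1 hy
      clear hy
      induction n with
      | zero => exact hz.1
      | succ n ih => exact hz.2 _ ih
  refine ⟨fun x hx => ?_, hnum', hom⟩
  rw [← hom o ho, gn_om hg ho hu] at hx
  obtain ⟨n, rfl⟩ := hx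
  exact ⟨n, hnum n⟩

end SSA
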