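import Pool.Agent.H77.SSA.Stmts

/-! SSA, module SIM: validity is invariant under finite legal changes. -/

namespace SSA

open Filter

/-- beyond a bound there are no changes -/
theorem RC.Sim.bound {q p : RC} (h : q.Sim p) {g : Crd} (hg : g ∈ p.Z) :
    ∃ M : ℕ, ∀ n k, (M ≤ n ∨ M ≤ k) → q.st g n k = p.st g n k := by
  have h1 : ((fun t : Crd × ℕ × ℕ => t.2.1 + t.2.2) ''
      {t : Crd × ℕ × ℕ | t.1 ∈ p.Z ∧ q.st t.1 t.2.1 t.2.2 ≠ p.st t.1 t.2.1 t.2.2}).Finite :=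
    h.fin.image _
  obtain ⟨M, hM⟩ := h1.bddAbove
  refine ⟨M + 1, fun n k hnk => ?_⟩
  by_contra hne
  have h2 := hM ⟨(g, n, k), ⟨hg, hne⟩, rfl⟩
  simp only at h2
  omega

theorem RC.Sim.ev {q p : RC} (h : q.Sim p) {g : Crd} (hg : g ∈ p.Z) (n : ℕ) :
    ∀ᶠ k in atTop, q.st g n k = p.st g n k := by
  obtain ⟨M, hM⟩ := h.bound hg
  exact eventually_atTop.2 ⟨M, fun k hk => hM n k (Or.inr hk)⟩

theorem ssa_sim : SIMStmt := by
  intro A p q hp h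
  obtain ⟨hG, hZ, hC⟩ := hp
  refine ⟨⟨?_, ?_, ?_, ?_, ?_⟩, ?_, ?_⟩
  · rw [h.Pi]; exact hG.cPi
  · rw [h.Pi]; exact hG.sl
  · rw [h.Z]; exact hG.cZ
  · intro ξ hξ k
    rw [h.ht] at hξ
    rw [h.x ξ hξ]
    exact hG.xb ξ hξ k
  · intro ξ hξ η hη hne
    rw [h.ht] at hξ hη
    rw [h.x ξ hξ, h.x η hη]
    exact hG.ed ξ hξ η hη hne
  · rw [h.Z]; exact hZ
  · intro g hg
    rw [h.Z] at hg
    obtain ⟨hV, hO⟩ := hC g hg
    have hdl := h.dl g hg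
    refine ⟨⟨?_, ?_, ?_, ?_, ?_, ?_, ?_⟩, ?_⟩
    · rw [hdl, h.ht]; exact hV.dht
    · exact h.leg g hg
    · intro ξ hξ n
      rw [hdl] at hξ
      have h1 := hV.c1 ξ hξ n
      filter_upwards [h1, h.ev hg n] with k hk1 hk2
      rw [hk2, h.x ξ (hξ.trans_le hV.dht)]
      exact hk1
    · intro ξ hξ1 hξ2 n
      rw [hdl] at hξ1
      rw [h.ht] at hξ2
      have h1 := (hV.c3 ξ hξ1 hξ2 n).and_eventually (h.ev hg n)
      refine h1.mono ?_
      rintro k ⟨⟨B, hB1, hB2⟩, hk⟩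
      refine ⟨B, hk.trans hB1, ?_⟩
      rw [h.x ξ hξ2]
      exact hB2
    · intro ξ hξ1 hξ2 n
      rw [hdl] at hξ1
      rw [h.ht] at hξ2
      filter_upwards [hV.c4 ξ hξ1 hξ2 n, h.ev hg n] with k hk1 hk2
      rw [hk2, h.x ξ hξ2]
      exact hk1
    · intro n
      obtain ⟨S, hS, h1⟩ := hV.r3 n
      obtain ⟨M, hM⟩ := h.bound hg
      rw [h.Pi]
      refine ⟨S, hS, fun N => ?_⟩
      obtain ⟨k, hk, B, hB1, hB2, hB3⟩ := h1 (max N M)
      refine ⟨k, le_trans (le_max_left _ _) hk, B, ?_, hB2, ?_⟩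
      · rw [hM n k (Or.inr (le_trans (le_max_right _ _) hk))]
        exact hB1
      · have := le_max_left N M
        omega
    · intro n
      obtain ⟨S, hS, h1⟩ := hV.r4 n
      rw [h.Pi]
      refine ⟨S, hS, ?_⟩
      filter_upwards [h1, h.ev hg n] with k hk1 hk2 i hi
      rw [hk2] at hi
      exact hk1 i hi
    · rw [Ok_iff] at hO ⊢
      refine ⟨hO.1, fun ξ hξ => ?_⟩
      rw [hdl] at hξ
      have h1 := hO.2 ξ hξ
      intro p' hp' N r hr hrp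
      obtain ⟨M, hM⟩ := h.bound hg
      obtain ⟨r', hr', hle, n, hn, k, κ, h2, h3, h4⟩ :=
        h1 p' (hp'.trans (h.res (Dep g))) (max N M) r hr hrp
      refine ⟨r', hr', hle, n, le_trans (le_max_left _ _) hn, k, κ, ?_, h3, h4⟩
      rw [hM n k (Or.inl (le_trans (le_max_right _ _) hn)), h.x ξ (hξ.trans_le hV.dht)]
      exact h2

end SSA
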